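import Pool.Agent.Helper55.CP.Ctx

/-! Piece STEP: one step of the chain. -/

set_option autoImplicit false

open Cardinal Ordinal Set Filter Helper23.Pcf

universe u

namespace Helper55.CP

theorem step_mk_range {ι : Type u} {ν : Cardinal.{u}} (h : #ι ≤ ν) (f : ι → Ordinal.{u}) :
    #(range f) ≤ Cardinal.lift.{u+1} ν := by
  have h1 : Cardinal.lift.{u} #(range f) ≤ Cardinal.lift.{u+1} #ι := Cardinal.mk_range_le_lift
  rw [Cardinal.lift_id'.{u, u+1}] at h1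
  exact h1.trans (Cardinal.lift_le.2 h)

theorem step_mk_ls (l : List Ordinal.{u}) : #(ls l) ≤ ℵ₀ := by
  have h : (ls l).Finite := List.finite_toSet l
  exact h.countable.le_aleph0

/-- the bound on one step for one ultraproduct and one smaller cardinal -/
theorem step_bd (T : Data.{u}) (S : Scales T) {J : Type u} (hJ : #J ≤ T.μ)
    (G : J → List Ordinal.{u} → Ordinal.{u}) (M : Set Ordinal.{u})
    (hM : #M ≤ Cardinal.lift.{u+1} T.μ) (q : T.Q) (p' : T.P)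
    (hlt : T.c p' < T.c (T.lam q)) :
    ∃ g : T.P → Ordinal.{u}, (∀ p, g p < (T.c p).ord) ∧
      ∀ l : List Ordinal.{u}, (∀ z ∈ l, z < (T.c p').ord) →
        ∀ᶠ p in T.D q, ∀ z ∈ Clo G (M ∪ ls l), z < (T.c p).ord → z < g p := by
  have h0 : ℵ₀ ≤ T.μ := T.hκ.trans T.hκμ
  have h0' : ℵ₀ ≤ Cardinal.lift.{u+1} T.μ := Cardinal.aleph0_le_lift.2 h0
  have hsm : ∀ (l : List Ordinal.{u}) p, chi (Clo G (M ∪ ls l)) (T.c p).ord < (T.c p).ord := by
    intro l p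
    refine chi_lt (T.reg p) (lt_of_le_of_lt (mk_Clo_le h0 hJ ?_) (Cardinal.lift_lt.2 (T.hμc p)))
    exact (Cardinal.mk_union_le _ _).trans
      (Cardinal.add_le_of_le h0' hM ((step_mk_ls l).trans h0'))
  -- the scale bounds for all lists
  let ι := List (T.c p').ord.ToType
  let v : ι → List Ordinal.{u} := fun l => l.map (fun x => (Ordinal.ToType.mk.symm x).1)
  have hbd : ∀ t : ι, ∃ ξ < (T.c (T.lam q)).ord,
      dlt (T.D q) (fun p => chi (Clo G (M ∪ ls (v t))) (T.c p).ord) (S.f q ξ) := fun t =>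
    S.cofinal q _ (dlt_of_forall fun p => hsm (v t) p)
  choose ξ hξ hξ' using hbd
  have hι : #ι < T.c (T.lam q) := by
    refine lt_of_le_of_lt (Cardinal.mk_list_le_max _) ?_
    rw [Cardinal.mk_toType, Cardinal.card_ord]
    exact lt_of_le_of_lt (max_le (T.reg p').1 le_rfl) hlt
  have hlim : Order.IsSuccLimit (T.c (T.lam q)).ord :=
    Cardinal.isSuccLimit_ord (T.reg (T.lam q)).1
  have hsup : (⨆ t, Order.succ (ξ t)) < (T.c (T.lam q)).ord := by
    refine Ordinal.iSup_lt_of_lt_cof ?_ fun t => hlim.succ_lt (hξ t)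
    rw [(T.reg (T.lam q)).cof_ord]
    exact hι
  refine ⟨S.f q (⨆ t, Order.succ (ξ t)), fun p => S.lt q _ p, ?_⟩
  intro l hl
  obtain ⟨t, ht⟩ : ∃ t : ι, v t = l := by
    refine ⟨l.attach.map (fun z => Ordinal.ToType.mk ⟨z.1, hl z.1 z.2⟩), ?_⟩
    simp only [v, List.map_map]
    conv_rhs => rw [← List.attach_map_subtype_val l]
    apply List.map_congr_left
    intro z _
    simp
  have h1 : ξ t < ⨆ t, Order.succ (ξ t) :=
    lt_of_lt_of_le (Order.lt_succ _) (Ordinal.le_iSup (fun t => Order.succ (ξ t)) t)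
  have h2 := (hξ' t).trans (S.mono q _ _ h1 hsup)
  rw [ht] at h2
  refine h2.mono ?_
  intro p hp z hz hzp
  exact (lt_chi hz hzp).trans hp

theorem step_exists (T : Data.{u}) (S : Scales T) {J : Type u} (hJ : #J ≤ T.μ)
    (G : J → List Ordinal.{u} → Ordinal.{u}) (M : Set Ordinal.{u})
    (hM : #M ≤ Cardinal.lift.{u+1} T.μ) :
    ∃ M' : Set Ordinal.{u}, M ⊆ M' ∧ #M' ≤ Cardinal.lift.{u+1} T.μ ∧
      (∀ j l, (∀ z ∈ l, z ∈ M) → G j l ∈ M') ∧
      (∀ p, chi M (T.c p).ord ∈ M') ∧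
      (∀ q, ∃ ξ ∈ M', ξ < (T.c (T.lam q)).ord ∧ ∀ᶠ p in T.D q, chi M (T.c p).ord < S.f q ξ p) ∧
      (∀ q p', T.c p' < T.c (T.lam q) → ∃ g : T.P → Ordinal.{u},
        (∀ p, g p ∈ M' ∧ g p < (T.c p).ord) ∧
        ∀ l : List Ordinal.{u}, (∀ z ∈ l, z < (T.c p').ord) →
          ∀ᶠ p in T.D q, ∀ z ∈ Clo G (M ∪ ls l), z < (T.c p).ord → z < g p) := by
  have h0 : ℵ₀ ≤ T.μ := T.hκ.trans T.hκμ
  have h0' : ℵ₀ ≤ Cardinal.lift.{u+1} T.μ := Cardinal.aleph0_le_lift.2 h0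
  have hsc : ∀ q, ∃ ξ < (T.c (T.lam q)).ord,
      dlt (T.D q) (fun p => chi M (T.c p).ord) (S.f q ξ) := fun q =>
    S.cofinal q _ (dlt_of_forall fun p =>
      chi_lt (T.reg p) (lt_of_le_of_lt hM (Cardinal.lift_lt.2 (T.hμc p))))
  choose ξ hξ hξ' using hsc
  have hg : ∀ q p', ∃ g : T.P → Ordinal.{u}, T.c p' < T.c (T.lam q) →
      (∀ p, g p < (T.c p).ord) ∧
      ∀ l : List Ordinal.{u}, (∀ z ∈ l, z < (T.c p').ord) →
        ∀ᶠ p in T.D q, ∀ z ∈ Clo G (M ∪ ls l), z < (T.c p).ord → z < g p := by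
    intro q p'
    by_cases h : T.c p' < T.c (T.lam q)
    · obtain ⟨g, hg⟩ := step_bd T S hJ G M hM q p' h
      exact ⟨g, fun _ => hg⟩
    · exact ⟨fun _ => 0, fun h' => absurd h' h⟩
  choose g hg using hg
  let M₁ : Set Ordinal.{u} := range (fun p => chi M (T.c p).ord)
  let M₂ : Set Ordinal.{u} := range ξ
  let M₃ : Set Ordinal.{u} := range (fun t : T.Q × T.P × T.P => g t.1 t.2.1 t.2.2)
  have hprod : #(T.Q × T.P × T.P) ≤ T.μ := by
    rw [Cardinal.mk_prod, Cardinal.mk_prod]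
    simp only [Cardinal.lift_id]
    exact Cardinal.mul_le_of_le h0 T.hQ (Cardinal.mul_le_of_le h0 T.hP T.hP)
  refine ⟨cstep G M ∪ (M₁ ∪ (M₂ ∪ M₃)), ?_, ?_, ?_, ?_, ?_, ?_⟩
  · exact subset_union_left.trans subset_union_left
  · refine (Cardinal.mk_union_le _ _).trans (Cardinal.add_le_of_le h0' (mk_cstep_le h0 hJ hM) ?_)
    refine (Cardinal.mk_union_le _ _).trans (Cardinal.add_le_of_le h0' (step_mk_range T.hP _) ?_)
    exact (Cardinal.mk_union_le _ _).trans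
      (Cardinal.add_le_of_le h0' (step_mk_range T.hQ _) (step_mk_range hprod _))
  · intro j l hl
    exact Or.inl (mem_cstep j l hl)
  · intro p
    exact Or.inr (Or.inl ⟨p, rfl⟩)
  · intro q
    exact ⟨ξ q, Or.inr (Or.inr (Or.inl ⟨q, rfl⟩)), hξ q, hξ' q⟩
  · intro q p' h
    refine ⟨g q p', fun p => ⟨Or.inr (Or.inr (Or.inr ⟨(q, p', p), rfl⟩)), (hg q p' h).1 p⟩,
      (hg q p' h).2⟩

end Helper55.CP
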