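import Pool.Agent.Helper55.CP.Ctx

/-! Piece SCALES. -/

set_option autoImplicit false

open Cardinal Ordinal Set Filter Helper23.Pcf

universe u

namespace Helper55.CP

theorem scales_exist (T : Data.{u}) : Nonempty (Scales T) := by
  classical
  choose f₀ h1 h2 h3 using fun q => (T.cof q).exists_scale
  have hpos : ∀ p, 0 < (T.c p).ord := fun p => (Cardinal.isSuccLimit_ord (T.reg p).1).bot_lt
  let f : T.Q → Ordinal.{u} → T.P → Ordinal.{u} := fun q ξ p =>
    if f₀ q ξ p < (T.c p).ord then f₀ q ξ p else 0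
  have hf : ∀ q ξ, ξ < (T.c (T.lam q)).ord → ∀ᶠ p in T.D q, f q ξ p = f₀ q ξ p := by
    intro q ξ hξ
    refine (h1 q ξ hξ).mono fun p hp => ?_
    simp only [f]
    rw [if_pos hp]
  refine ⟨⟨f, ?_, ?_, ?_⟩⟩
  · intro q ξ p
    simp only [f]
    split_ifs with h
    · exact h
    · exact hpos p
  · intro q ξ η hξη hη
    have h4 := h2 q ξ η hξη hη
    unfold dlt at h4 ⊢
    filter_upwards [h4, hf q ξ (hξη.trans hη), hf q η hη] with p h5 h6 h7
    rw [h6, h7]
    exact h5
  · intro q g hg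
    obtain ⟨ξ, hξ, h4⟩ := h3 q g hg
    refine ⟨ξ, hξ, ?_⟩
    unfold dlt at h4 ⊢
    filter_upwards [h4, hf q ξ hξ] with p h5 h6
    rw [h6]
    exact h5

end Helper55.CP
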